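import Pool.Agent.Helper79.HE.Star

/-!
# Triangles with two pentagons: the junction
-/

namespace Pool.Agent.Helper79.HE

open Finset Pool.Agent.Helper79.HX Pool.Agent.Helper79.HD

theorem jun4e : ∀ (n r t s : ℕ) (C : Multiset ℕ) (a b N : ℕ), r ≤ n → 1 ≤ r →
    (r % 2 = 1 → 1 ≤ b) → 2 ≤ s → (∀ c ∈ C, 3 ≤ c) → b ≤ 3 →
    r + s + C.sum + 3 * Multiset.card C + 8 ≤ 2 * a + b →
    2 * a + b ≤ r + s + C.sum + 3 * Multiset.card C + 30 →
    3 * a + 2 * b + 2 * Multiset.card C + 5 ≤ r + t + s + C.sum →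
    a + 10 * Multiset.card C + 60 ≤ N → V 4 r t s C a b N := by
  intro n
  induction n using Nat.strong_induction_on with
  | _ n ih =>
  intro r t s C a b N hn hr1 hr hs hC hb3 h1 h2 h3 h4
  rcases (by omega : r = 1 ∨ r = 2 ∨ 3 ≤ r) with hr1 | hr2 | hr3
  · subst hr1
    exact ((star3 _).2 (t - 1) (s - 1) C a (b - 1) N le_rfl (by omega) hC (by omega) (by omega)
      (by omega) (by omega)).vend4.to rfl rfl (by omega) (by omega) rfl rfl (by omega) le_rfl
  · subst hr2
    exact (vback ((star3 _).2 (t - 2) (s - 1) C (a - 1) b N le_rfl (by omega) hC (by omega)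
      (by omega) (by omega) (by omega)).vend3).to rfl rfl (by omega) (by omega) rfl (by omega) rfl
      le_rfl
  · exact (ih (n - 1) (by omega) (r - 2) (t - 1) s C (a - 1) b (N - 1) (by omega) (by omega)
      (by omega) hs hC hb3 (by omega) (by omega) (by omega) (by omega)).string.to rfl (by omega)
      (by omega) rfl rfl (by omega) rfl (by omega)

theorem jun3e : ∀ (n r t s : ℕ) (C : Multiset ℕ) (a b N : ℕ), r ≤ n → 1 ≤ r → 2 ≤ s →
    (∀ c ∈ C, 3 ≤ c) → (a = 0 → 3 ≤ r) → (b = 0 → r ≠ 2) →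
    r + s + C.sum + 3 * Multiset.card C + 9 ≤ 2 * a + b →
    2 * a + b ≤ r + s + C.sum + 3 * Multiset.card C + 30 →
    3 * a + 2 * b + 2 * Multiset.card C + 5 ≤ r + t + s + C.sum →
    a + 10 * Multiset.card C + 60 ≤ N → V 3 r t s C a b N := by
  intro n
  induction n using Nat.strong_induction_on with
  | _ n ih =>
  intro r t s C a b N hn hr hs hC ha0 hb h1 h2 h3 h4
  rcases Nat.eq_zero_or_pos a with ha | ha
  · subst ha
    have := ha0 rfl
    rcases (by omega : r = 3 ∨ 4 ≤ r) with hr3 | hr4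
    · subst hr3
      exact ((star3 _).2 (t - 3) (s - 1) C 0 (b - 3) N le_rfl (by omega) hC (by omega) (by omega)
        (by omega) (by omega)).vcap.to rfl rfl (by omega) (by omega) rfl rfl (by omega) le_rfl
    · exact (ih (n - 1) (by omega) (r - 1) (t - 1) s C 0 (b - 1) N (by omega) (by omega) hs hC
        (by omega) (by omega) (by omega) (by omega) (by omega) (by omega)).quad.to rfl (by omega)
        (by omega) rfl rfl rfl (by omega) le_rfl
  rcases (by omega : r = 1 ∨ 2 ≤ r) with hr1 | hr2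
  · subst hr1
    exact ((star3 _).2 (t - 1) (s - 1) C (a - 1) b N le_rfl (by omega) hC (by omega) (by omega)
      (by omega) (by omega)).vend3.to rfl rfl (by omega) (by omega) rfl (by omega) rfl le_rfl
  by_cases hq : 2 ≤ b ∨ r = 2
  · exact (ih (n - 1) (by omega) (r - 1) (t - 1) s C a (b - 1) N (by omega) (by omega) hs hC
      (by omega) (by omega) (by omega) (by omega) (by omega) (by omega)).quad.to rfl (by omega)
      (by omega) rfl rfl rfl (by omega) le_rfl
  rcases Nat.even_or_odd' r with ⟨j, hj | hj⟩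
  · exact (jun4e (r - 2) (r - 2) (t - 1) s C (a - 1) b N le_rfl (by omega) (by omega) hs hC
      (by omega) (by omega) (by omega) (by omega) (by omega)).switch.to rfl (by omega) (by omega)
      rfl rfl (by omega) rfl le_rfl
  · exact (vsymm (vsymm (jun4e (r - 1) (r - 1) (t - 2) s C (a - 1) b N le_rfl (by omega)
      (by omega) hs hC (by omega) (by omega) (by omega) (by omega) (by omega))).switch).to rfl
      (by omega) (by omega) rfl rfl (by omega) rfl le_rfl

theorem jun5 : ∀ (n r t s : ℕ) (C : Multiset ℕ) (e a b N : ℕ), r ≤ n → 1 ≤ r → 2 ≤ s →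
    (∀ c ∈ C, 3 ≤ c) → (a + e = 0 → 3 ≤ r) → (b = 0 → r ≠ 2) →
    r + s + C.sum + 3 * Multiset.card C + 11 ≤ 3 * e + 2 * a + b →
    (4 ≤ r → r + s + C.sum + 3 * Multiset.card C + 12 ≤ 3 * e + 2 * a + b) →
    3 * e + 2 * a + b ≤ r + s + C.sum + 3 * Multiset.card C + 30 →
    5 * e + 3 * a + 2 * b + 2 * Multiset.card C + 5 ≤ r + t + s + C.sum →
    a + 10 * Multiset.card C + 70 ≤ N → V 3 r t s C (a + e) b N := by
  intro n
  induction n using Nat.strong_induction_on with
  | _ n ih =>
  intro r t s C e a b N hn hr hs hC ha0 hb h1 h1' h2 h3 h4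
  rcases Nat.eq_zero_or_pos e with rfl | he
  · exact jun3e _ r t s C a b N le_rfl hr hs hC (by omega) hb (by omega) (by omega) (by omega)
      (by omega)
  rcases (by omega : a + e = 1 ∨ 2 ≤ a + e) with hae | hae
  · rw [hae]
    exact jun3e _ r t s C 1 b N le_rfl hr hs hC (by omega) hb (by omega) (by omega) (by omega)
      (by omega)
  obtain ⟨e2, a2, g⟩ : ∃ e2 a2, (e2 = e - 2 ∧ a2 = a ∧ 2 ≤ e) ∨
      (e = 1 ∧ e2 = 0 ∧ a2 = a - 1 ∧ 1 ≤ a) := by
    rcases (by omega : 2 ≤ e ∨ e = 1) with h | h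
    · exact ⟨e - 2, a, Or.inl ⟨rfl, rfl, h⟩⟩
    · exact ⟨0, a - 1, Or.inr ⟨h, rfl, rfl, by omega⟩⟩
  rcases (by omega : r = 1 ∨ r = 2 ∨ r = 3 ∨ r = 4 ∨ r = 5 ∨ 6 ≤ r) with
    h | h | h | h | h | h
  · subst h
    exact ((star5 _).2 (t - 1) (s - 1) C (e - 1) a b N le_rfl (by omega) hC (by omega) (by omega)
      (by omega) (by omega)).vend3.to rfl rfl (by omega) (by omega) rfl (by omega) rfl le_rfl
  · subst h
    exact ((star5 _).2 (t - 2) (s - 1) C (e - 1) a (b - 1) N le_rfl (by omega) hC (by omega)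
      (by omega) (by omega) (by omega)).vend3.quad.to rfl rfl (by omega) (by omega) rfl
      (by omega) (by omega) le_rfl
  · subst h
    exact (vsymm (vfive (vsymm ((star5 _).2 (t - 4) (s - 1) C e2 a2 b N le_rfl (by omega) hC
      (by omega) (by omega) (by omega) (by omega)).vend3))).to rfl rfl (by omega) (by omega) rfl
      (by omega) rfl le_rfl
  · subst h
    exact (vfive ((star5 _).2 (t - 3) (s - 1) C e2 a2 b N le_rfl (by omega) hC
      (by omega) (by omega) (by omega) (by omega)).vend3).to rfl rfl (by omega) (by omega) rfl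
      (by omega) rfl le_rfl
  · subst h
    exact (vsymm (vfive (vsymm (ih 3 (by omega) 3 (t - 3) s C (e - 1) a b N le_rfl (by omega) hs
      hC (by omega) (by omega) (by omega) (by omega) (by omega) (by omega) (by omega))))).to rfl
      rfl (by omega) rfl rfl (by omega) rfl le_rfl
  · exact (vfive (ih (r - 3) (by omega) (r - 3) (t - 2) s C (e - 1) a b N le_rfl (by omega) hs
      hC (by omega) (by omega) (by omega) (by omega) (by omega) (by omega) (by omega))).to rfl
      (by omega) (by omega) rfl rfl (by omega) rfl le_rfl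

end Pool.Agent.Helper79.HE
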