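import Pool.Agent.Helper79.HE.Jun

/-!
# Triangles with two pentagons: the balanced case
-/

namespace Pool.Agent.Helper79.HE

open Finset Pool.Agent.Helper79.HX Pool.Agent.Helper79.HD

/-- the statement for `k` further faces -/
def Pe (k : ℕ) : Prop := ∀ (R K : ℕ) (C : Multiset ℕ) (e a b N : ℕ), Multiset.card C = k →
  1 ≤ R → R ≤ K → (∀ c ∈ C, 3 ≤ c ∧ c ≤ K) → 5 * e + 3 * a + 2 * b + 2 * k + 11 ≤ R + K + C.sum →
  (40 ≤ b → 5 * e + 3 * a + 2 * b + 2 * k + 12 ≤ R + K + C.sum) →
  a + min e 50 + 20 * k + 200 ≤ N →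
  2 * e + 2 * a + b + 6 * k + 15 ≤ N + R + C.sum → WN R (K ::ₘ C) (a + e) b N

theorem phC {k : ℕ} (ih : Pe k) : ∀ (n r s K : ℕ) (C : Multiset ℕ) (e a b N : ℕ), r ≤ n →
    Multiset.card C = k → 1 ≤ r → r < s → s ≤ K → s + 100 ≤ K + 2 * e → 5 ≤ e →
    (∀ c ∈ C, 3 ≤ c ∧ c ≤ K) → (2 ≤ b ∨ 2 * r + 11 ≤ 3 * s) →
    5 * e + 3 * a + 2 * b + 2 * k + 13 ≤ r + s + K + C.sum →
    (40 ≤ b → 5 * e + 3 * a + 2 * b + 2 * k + 14 ≤ r + s + K + C.sum) →
    r + s + K + C.sum ≤ 5 * e + 3 * a + 2 * b + 2 * k + 14 →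
    a + 20 * k + 255 ≤ N → 3 * e + 2 * a + b ≤ r + s + C.sum + 3 * k + 20 →
    W 3 r s (K ::ₘ C) (a + e) b N := by
  intro n
  induction n using Nat.strong_induction_on with
  | _ n ihn =>
  intro r s K C e a b N hn hk hr hrs hsK hsK' he hC hbs h1 h1' h2 h3 h4
  have hS := sum_ge3 (fun c hc => (hC c hc).1)
  rcases (by omega : r = 1 ∨ (r ≤ 3 ∧ 2 ≤ r ∧ 2 ≤ b) ∨ (r = 2 ∧ b < 2) ∨ (r = 3 ∧ b < 2) ∨ r = 4 ∨
    5 ≤ r) with h | h | h | h | h | hr5
  · subst h
    exact (ih (s - 1) K C e a b N hk (by omega) (by omega) hC (by omega) (by omega)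
      (by omega) (by omega)).fin3.symm.to rfl rfl (by omega) rfl rfl rfl le_rfl
  · exact ((ih (s - r) K C e a (b - (r - 1)) N hk (by omega) (by omega) hC (by omega) (by omega)
      (by omega) (by omega)).fin3.symm.quads (r - 1)).to rfl (by omega) (by omega) rfl rfl
      (by omega) le_rfl
  · obtain ⟨rfl, h6⟩ := h
    exact ((ih (s - 4) K C (e - 1) a b (N - 1) hk (by omega) (by omega) hC (by omega) (by omega)
      (by omega) (by omega)).fin4.switch.symm).to rfl rfl (by omega) rfl (by omega) rfl (by omega)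
  · obtain ⟨rfl, h6⟩ := h
    exact (five (ih (s - 4) K C (e - 1) a b N hk (by omega) (by omega) hC (by omega) (by omega)
      (by omega) (by omega)).fin3).symm.to rfl rfl (by omega) rfl (by omega) rfl (by omega)
  · subst h
    exact (five (ih (s - 3) K C (e - 1) a b N hk (by omega) (by omega) hC (by omega) (by omega)
      (by omega) (by omega)).fin3.symm).to rfl rfl (by omega) rfl (by omega) rfl (by omega)
  by_cases hF : r + s + C.sum + 3 * k + 9 ≤ 3 * e + 2 * a + b
  · exact (jun5 _ (r - 2) K (s - 1) C e a b N le_rfl (by omega) (by omega)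
      (fun c hc => (hC c hc).1) (by omega) (by omega) (by omega) (by omega) (by omega)
      (by omega) (by omega)).open.to rfl (by omega) (by omega) rfl rfl rfl le_rfl
  rcases (by omega : 4 ≤ b ∨ (b < 4 ∧ 6 ≤ e) ∨ (b < 4 ∧ e = 5)) with hb | ⟨hb, he'⟩ | ⟨hb, he'⟩
  · exact (ihn (n - 1) (by omega) (r - 1) (s - 1) K C e a (b - 1) N (by omega) hk (by omega)
      (by omega) (by omega) (by omega) he hC (by omega) (by omega) (by omega) (by omega)
      (by omega) (by omega)).quad.to rfl (by omega) (by omega) rfl rfl (by omega) le_rfl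
  · exact (five (ihn (n - 1) (by omega) (r - 3) (s - 2) K C (e - 1) a b N (by omega) hk (by omega)
      (by omega) (by omega) (by omega) (by omega) hC (by omega) (by omega) (by omega) (by omega)
      (by omega) (by omega))).to rfl (by omega) (by omega) rfl (by omega) rfl le_rfl
  · subst he'
    have ha : r + 6 ≤ a := by omega
    have h5 := phase k (s + r % 2 - 3 - r / 2) K C (a + 5 - r / 2) b (N - r / 2) hk (by omega)
      (by omega) hC (by omega) (by omega) (by omega) (by omega)
    exact (kill4 (r := r - 2) (s := s - 1) (a := a + 4) (b := b) (N := N) (by omega) (by omega)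
      (by omega) (by omega) (h5.to (by omega) rfl (by omega) rfl (by omega))).switch.to rfl
      (by omega) (by omega) rfl (by omega) rfl le_rfl

theorem phaseE : ∀ k, Pe k := by
  intro k
  induction k with
  | zero =>
    intro R K C e a b N hk hR hRK hC h1 h2 h3 h4
    rcases (by omega : e < 50 ∨ 50 ≤ e) with he | he
    · exact phase 0 R K C (a + e) b N hk hR hRK hC (by omega) (by omega) (by omega) (by omega)
    rw [Multiset.card_eq_zero] at hk
    subst hk
    rw [Multiset.sum_zero] at h1 h2 h4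
    have hst : ∀ R', 1 ≤ R' → R' + 3 ≤ 3 * e + 2 * a + b → 5 * e + 3 * a + 2 * b + 4 ≤ K + R' →
        2 * e + 2 * a + b + 12 ≤ N + R' → WN R' (K ::ₘ 0) (a + e) b N := by
      intro R' g1 g2 g3 g4
      exact ((star5 _).2 K R' 0 e a b N le_rfl g1 (by simp) (by
        rw [Multiset.sum_zero, Multiset.card_zero]; omega) (by
        rw [Multiset.sum_zero, Multiset.card_zero]; omega) (by
        rw [Multiset.card_zero]; omega) (by
        rw [Multiset.sum_zero, Multiset.card_zero]; omega)).symm.fresh3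
    by_cases hF : R + 3 ≤ 3 * e + 2 * a + b
    · exact hst R hR hF (by omega) (by omega)
    · exact ((hst (3 * e + 2 * a + b - 3) (by omega) (by omega) (by omega) (by omega)).grow
        (R + 3 - (3 * e + 2 * a + b))).to (by omega) rfl rfl rfl le_rfl
  | succ k ih =>
    intro R
    induction R using Nat.strong_induction_on with
    | _ R ihR =>
    intro K C e a b N hk hR hRK hC h1 h2 h3 h4
    rcases (by omega : e < 50 ∨ 50 ≤ e) with he | he
    · exact phase (k + 1) R K C (a + e) b N hk hR hRK hC (by omega) (by omega) (by omega)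
        (by omega)
    have hS := sum_ge3 (fun c hc => (hC c hc).1)
    by_cases hT : 3 * (a + e) + b + 2 * (k + 2) ≤ N
    · exact tape _ R (K ::ₘ C) (a + e) b N le_rfl hR (by
        intro c hc
        rcases Multiset.mem_cons.1 hc with h | h
        · have : 1 ≤ Multiset.card C := by omega
          obtain ⟨c', hc'⟩ := Multiset.card_pos_iff_exists_mem.1 this
          have := hC c' hc'
          omega
        · exact (hC c h).1) (by
        rw [Multiset.sum_cons, Multiset.card_cons]
        omega) (by rw [Multiset.card_cons]; omega)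
    by_cases hF : R + 3 + C.sum + 3 * (k + 1) ≤ 3 * e + 2 * a + b
    · exact ((star5 _).2 K R C e a b N le_rfl hR (fun c hc => (hC c hc).1) (by omega) (by omega)
        (by omega) (by omega)).symm.fresh3
    have key : ∀ c ∈ C, ∃ C', C = c ::ₘ C' ∧ Multiset.card C' = k ∧ C.sum = c + C'.sum ∧
        (∀ c' ∈ C', 3 ≤ c' ∧ c' ≤ K) ∧ 3 ≤ c ∧ c ≤ K := by
      intro c hc
      obtain ⟨C', rfl⟩ := Multiset.exists_cons_of_mem hc
      rw [Multiset.card_cons] at hk
      exact ⟨C', rfl, by omega, Multiset.sum_cons _ _,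
        fun c' h => hC c' (Multiset.mem_cons_of_mem h), hC c (by simp)⟩
    obtain ⟨c0, hc0⟩ : ∃ c, c ∈ C := Multiset.card_pos_iff_exists_mem.1 (by omega)
    rcases (by omega : R = 1 ∨ 2 ≤ R) with hR1 | hR2
    · subst hR1
      obtain ⟨C', rfl, g1, g2, g3, g4, g5⟩ := key c0 hc0
      have h5 := ih (c0 - 1) K C' e a b N g1 (by omega) (by omega) g3 (by omega) (by omega)
        (by omega) (by omega)
      exact h5.s0.to rfl (by
        rw [Multiset.cons_swap]; congr 2; omega) rfl rfl le_rfl
    by_cases hP : 5 * e + 3 * a + 2 * b + 2 * (k + 1) + 13 ≤ R + K + C.sum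
    · exact (ihR (R - 1) (by omega) K C e a b N hk (by omega) (by omega) hC (by omega) (by omega)
        (by omega) (by omega)).P.to (by omega) rfl rfl rfl le_rfl
    obtain ⟨c, hc, hbig⟩ : ∃ c ∈ C, 12 ≤ R ∨ 12 ≤ c := by
      by_contra hcon
      push Not at hcon
      have h7 : ∀ c ∈ C, c ≤ 11 := fun c hc => by have := (hcon c hc).2; omega
      have := Multiset.sum_le_card_nsmul C 11 h7
      rw [smul_eq_mul, hk] at this
      have := (hcon c0 hc0).1
      omega
    obtain ⟨C', rfl, g1, g2, g3, g4, g5⟩ := key c hc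
    rw [Multiset.cons_swap]
    rcases Nat.lt_trichotomy R c with hlt | heq | hgt
    · exact (phC ih R R c K C' e a b N le_rfl g1 hR hlt g5 (by omega) (by omega) g3 (by omega)
        (by omega) (by omega) (by omega) (by omega) (by omega)).fresh3
    · subst heq
      exact (five (phC ih (R - 3) (R - 3) (R - 2) K C' (e - 1) a b N le_rfl g1 (by omega)
        (by omega) (by omega) (by omega) (by omega) g3 (by omega) (by omega) (by omega) (by omega)
        (by omega) (by omega))).fresh3.to (by omega) (by congr 1; omega) (by omega) rfl le_rfl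
    · exact (phC ih c c R K C' e a b N le_rfl g1 (by omega) hgt hRK (by omega) (by omega) g3
        (by omega) (by omega) (by omega) (by omega) (by omega) (by omega)).symm.fresh3

end Pool.Agent.Helper79.HE
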